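import Pool.Agent.H.MP_75fd85_lc.Defs

namespace Pool.Agent.H.MP_75fd85_lc

open SimpleGraph Walk

variable {V : Type} {G : SimpleGraph V}

theorem split {x y : V} {e} (q : G.Walk x y) (h : q.edges.Nodup) (m : e ∈ q.edges) :
    ∃ (a b : V) (p : G.Walk x a) (r : G.Walk b y), e = s(a, b) ∧ e ∉ p.edges ∧ e ∉ r.edges ∧
      q.length = p.length + r.length + 1 ∧ ∀ z, z ∈ q.support ↔ z ∈ p.support ∨ z ∈ r.support := by
  induction q with
  | nil => simp at m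
  | @cons x w y k q ih =>
    simp only [edges_cons, List.nodup_cons, List.mem_cons] at h m
    by_cases c : e = s(x, w)
    · exact ⟨x, w, nil, q, c, by simp, c ▸ h.1, by simp, by simp⟩
    · obtain ⟨a, b, p, r, h1, h2, h3, h4, h5⟩ := ih h.2 (m.resolve_left c)
      exact ⟨a, b, cons k p, r, h1, by simp [c, h2], h3, by simp [h4]; omega, by simp [h5, or_assoc]⟩

theorem opened {x u v : V} {c : G.Walk x x} (h : c.IsCycle) (m : s(u, v) ∈ c.edges) : ∃ p : G.Walk u v,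
    s(u, v) ∉ p.edges ∧ c.length = p.length + 1 ∧ ∀ z, z ∈ c.support ↔ z ∈ p.support := by
  obtain ⟨a, b, p, r, h1, h2, h3, h4, h5⟩ := split c h.edges_nodup m
  obtain ⟨rfl, rfl⟩ | ⟨rfl, rfl⟩ := Sym2.eq_iff.1 h1
  · exact ⟨(r.append p).reverse, by simp [h2, h3], by simp [h4, add_comm], by simp [h5, or_comm]⟩
  · exact ⟨r.append p, by simp [h2, h3], by simp [h4, add_comm], by simp [h5, or_comm]⟩

theorem build (w : ℕ → V) (N : ℕ) (h : ∀ i < N, G.Adj (w i) (w (i + 1))) : ∃ p : G.Walk (w 0) (w N),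
    p.support = (List.range (N + 1)).map w ∧ p.edges = (List.range N).map fun i => s(w i, w (i + 1)) := by
  induction N with
  | zero => exact ⟨nil, by simp⟩
  | succ N ih =>
    obtain ⟨p, a, b⟩ := ih fun i _ => h i (by omega)
    exact ⟨p.concat (h N (by omega)), by simp [a, List.range_succ], by simp [b, List.range_succ]⟩

abbrev K := ℕ × ℕ × ℕ

def In (n m : ℕ) (x : K) : Prop :=
  x.1 ≤ m ∧ x.2.1 ≤ n + 1 ∧ x.2.2 ≤ 2 ∧ (x.1 = 0 → x.2.2 = 0 ∨ x.2.2 = 1 ∧ 1 ≤ x.2.1 ∧ x.2.1 ≤ n)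

def A (n : ℕ) (att : ℕ → ℕ → ℕ → Prop) (x y : K) : Prop :=
  x.1 = y.1 ∧ (y.2.1 = x.2.1 + 1 ∨ x.1 ≠ 0 ∧ y.2.1 = x.2.1 ∨ x.1 = 0 ∧ x.2.1 = 0 ∧ y.2.1 = n + 1) ∨
    x.1 = 0 ∧ y.1 ≠ 0 ∧ y.2.1 = x.2.1 ∧ att y.1 x.2.1 x.2.2

structure Rep (G : SimpleGraph V) (n m : ℕ) (att : ℕ → ℕ → ℕ → Prop) (nm : V → K) : Prop where
  inj : Function.Injective nm
  ran : ∀ p, In n m p ↔ ∃ u, nm u = p
  adj : ∀ u v, G.Adj u v ↔ nm u ≠ nm v ∧ (A n att (nm u) (nm v) ∨ A n att (nm v) (nm u))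
  one : 1 ≤ m
  body : ∀ l b, att 1 l b

variable {n m : ℕ} {att : ℕ → ℕ → ℕ → Prop} {nm : V → K}

theorem Rep.conn (R : Rep G n m att nm) (D : Set V)
    (h1 : ∀ t ≤ m, t ≠ 0 → ∀ l ≤ n + 1, ∃ u ∈ D, (nm u).1 = t ∧ (nm u).2.1 = l)
    (h2 : ∀ t ≤ m, 2 ≤ t → ∃ u ∈ D, (nm u).1 = 0 ∧ att t (nm u).2.1 (nm u).2.2) : (G.induce D).Connected := by
  have I := fun u => (R.ran _).2 ⟨u, rfl⟩
  have a : ∀ l, ∀ u v : D, (nm u).1 ≠ 0 → (nm u).1 = (nm v).1 → (nm u).2.1 = l → (nm v).2.1 = 0 →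
      (G.induce D).Reachable u v := fun l => by
    induction l with
    | zero =>
      intro u v a b c d
      by_cases q : u = v
      · rw [q]
      · exact Adj.reachable ((R.adj u v).2 ⟨R.inj.ne (Subtype.coe_ne_coe.2 q), .inl (.inl ⟨b, by omega⟩)⟩)
    | succ l ih =>
      intro u v a b c d
      obtain ⟨w, e, f, g⟩ := h1 _ (I u).1 a l (by have := (I u).2.1; omega)
      exact (Adj.reachable (v := ⟨w, e⟩) ((R.adj u w).2 ⟨fun q => by rw [q] at c; omega,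
        .inr (.inl ⟨f, by omega⟩)⟩)).trans (ih ⟨w, e⟩ v (f ▸ a) (f.trans b) g d)
  have b : ∀ t ≤ m, t ≠ 0 → ∀ u v : D, (nm u).1 = 0 → att t (nm u).2.1 (nm u).2.2 → (nm v).1 = t → (nm v).2.1 = 0 →
      (G.induce D).Reachable u v := fun t a0 a1 u v a2 a3 a4 a5 => by
    obtain ⟨w, e, f, g⟩ := h1 t a0 a1 _ (I u).2.1
    exact (Adj.reachable (v := ⟨w, e⟩) ((R.adj u w).2 ⟨fun q => by rw [q] at a2; omega,
      .inl (.inr ⟨a2, f ▸ a1, g, f ▸ a3⟩)⟩)).trans (a _ ⟨w, e⟩ v (f ▸ a1) (f.trans a4.symm) rfl a5)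
  obtain ⟨z, z1, z2, z3⟩ := h1 1 R.one one_ne_zero 0 (by omega)
  refine (connected_iff_exists_forall_reachable _).2 ⟨⟨z, z1⟩, fun u => .symm ?_⟩
  obtain q | q | q : (nm u).1 = 0 ∨ (nm u).1 = 1 ∨ 2 ≤ (nm u).1 := by omega
  · exact b 1 R.one one_ne_zero _ _ q (R.body _ _) z2 z3
  · exact a _ _ _ (by omega) (q.trans z2.symm) rfl z3
  · obtain ⟨w, w1, w2, w3⟩ := h1 _ (I u).1 (by omega) 0 (by omega)
    obtain ⟨y, y1, y2, y3⟩ := h2 _ (I u).1 q
    exact ((a _ u ⟨w, w1⟩ (by omega) w2.symm rfl w3).trans (b _ (I u).1 (by omega) ⟨y, y1⟩ _ y2 y3 w2 w3).symm).trans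
      (b 1 R.one one_ne_zero _ _ y2 (R.body _ _) z2 z3)

theorem Rep.three (R : Rep G n m att nm) (S : Finset V) (h : S.card ≤ 2) {p q r : K} (a : In n m p) (b : In n m q)
    (c : In n m r) (d : p ≠ q) (e : p ≠ r) (f : q ≠ r) : ∃ u ∉ S, nm u = p ∨ nm u = q ∨ nm u = r := by
  classical
  obtain ⟨x, rfl⟩ := (R.ran _).1 a
  obtain ⟨y, rfl⟩ := (R.ran _).1 b
  obtain ⟨z, rfl⟩ := (R.ran _).1 c
  obtain ⟨u, g, g'⟩ := Finset.exists_mem_notMem_of_card_lt_card (s := S) (t := {x, y, z}) (by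
    rw [Finset.card_eq_three.2 ⟨x, y, z, ne_of_apply_ne _ d, ne_of_apply_ne _ e, ne_of_apply_ne _ f, rfl⟩]; omega)
  exact ⟨u, g', by simpa [R.inj.eq_iff] using g⟩

theorem Rep.tc [Finite V] (R : Rep G n m att nm) (h : ∀ t ≤ m, 2 ≤ t → ∃ b ≤ 1, ∃ x < n, ∃ y < n, ∃ z < n,
    x ≠ y ∧ x ≠ z ∧ y ≠ z ∧ att t (x + 1) b ∧ att t (y + 1) b ∧ att t (z + 1) b) : ThreeConn G := by
  have o := R.one
  refine ⟨?_, fun S s => R.conn _ (fun t a b l c => ?_) fun t a b => ?_⟩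
  · choose f hf using fun i : Fin 4 => (R.ran (1, i / 2, i % 2)).1 (by simp [In]; omega)
    simpa using Nat.card_le_card_of_injective f fun i j e => by
      have := (hf i).symm.trans (e ▸ hf j)
      simp at this; omega
  · obtain ⟨u, d, e⟩ := R.three S s (p := (t, l, 0)) (q := (t, l, 1)) (r := (t, l, 2)) (by simp [In, *]) (by simp [In, *])
      (by simp [In, *]) (by simp) (by simp) (by simp)
    exact ⟨u, d, by rcases e with e | e | e <;> simp [e]⟩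
  · obtain ⟨c, d, x, x1, y, y1, z, z1, e, f, g, k⟩ := h t a b
    obtain ⟨u, d, e⟩ := R.three S s (p := (0, x + 1, c)) (q := (0, y + 1, c)) (r := (0, z + 1, c))
      (by simp [In]; omega) (by simp [In]; omega) (by simp [In]; omega) (by simpa) (by simpa) (by simpa)
    exact ⟨u, d, by rcases e with e | e | e <;> simp [e, k]⟩

theorem Rep.walk (R : Rep G n m att nm) {u v : V} (hu : nm u = (0, 0, 0)) (hv : nm v = (0, n + 1, 0)) {x y : V}
    (p : G.Walk x y) (e : s(u, v) ∉ p.edges) : (nm y).2.1 ≤ (nm x).2.1 + p.length ∧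
      ((nm y).2.1 = (nm x).2.1 + p.length → (∀ z ∈ p.support, (nm z).1 = (nm x).1) ∧
        ∀ l, (nm x).2.1 ≤ l → l ≤ (nm y).2.1 → ∃ z ∈ p.support, (nm z).2.1 = l) := by
  induction p with
  | nil => simp; omega
  | @cons x w y k p ih =>
    simp only [edges_cons, List.mem_cons, not_or, length_cons, support_cons, forall_eq_or_imp, true_and,
      exists_eq_or_imp] at e ⊢
    obtain ⟨a, b⟩ := ih e.2
    have : (nm w).2.1 ≤ (nm x).2.1 ∨ (nm w).2.1 = (nm x).2.1 + 1 ∧ (nm w).1 = (nm x).1 := by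
      have i := (R.ran _).2 ⟨x, rfl⟩
      have j := (R.ran _).2 ⟨w, rfl⟩
      have := ((R.adj x w).1 k).2
      unfold A In at *
      by_contra c
      refine e.1 ?_
      rw [R.inj (hu.trans (Prod.ext ?_ (Prod.ext ?_ ?_) : _ = nm x)),
        R.inj (hv.trans (Prod.ext ?_ (Prod.ext ?_ ?_) : _ = nm w))] <;> dsimp only <;> omega
    refine ⟨by omega, fun c => ⟨fun z d => ((b (by omega)).1 z d).trans (by omega), fun l d f => ?_⟩⟩
    by_cases q : (nm x).2.1 = l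
    exacts [.inl q, .inr ((b (by omega)).2 l (by omega) f)]

theorem Rep.fwd [Finite V] (R : Rep G n m att nm) {u v x : V} (hu : nm u = (0, 0, 0)) (hv : nm v = (0, n + 1, 0))
    {c : G.Walk x x} (h : IsINC c) (e : s(u, v) ∈ c.edges) (l : c.length ≤ n + 2) : ∃ f : ℕ → ℕ, (∀ l, f l ≤ 1) ∧
      ∀ t ≤ m, 2 ≤ t → ∃ l b, att t l b ∧ (1 ≤ l → l ≤ n → b ≠ f l) := by
  classical
  obtain ⟨p, p1, p2, p3⟩ := opened h.1 e
  obtain ⟨a, b⟩ := R.walk hu hv p p1
  simp only [hu, hv, ← p3] at a b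
  obtain ⟨b, d⟩ := b (by omega)
  have : Nonempty V := ⟨u⟩
  choose! g g1 g2 using fun l => d l l.zero_le
  refine ⟨fun l => min (nm (g l)).2.2 1, fun _ => min_le_right _ _, fun t t1 t2 => ?_⟩
  obtain ⟨y, hy⟩ := (R.ran (t, 0, 0)).1 (by simp [In, t1])
  obtain ⟨z, hz⟩ := (R.ran (1, 0, 0)).1 (by simp [In, R.one])
  have y1 : y ∉ c.support := fun q => by have := b y q; rw [hy] at this; omega
  have z1 : z ∉ c.support := fun q => by simpa [hz] using b z q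
  have : Nonempty (G.induce {y | y ∉ c.support}).ConnectedComponent := ⟨connectedComponentMk _ ⟨z, z1⟩⟩
  have k := (Nat.card_eq_one_iff_unique.1 (show Nat.card (G.induce {y | y ∉ c.support}).ConnectedComponent = 1 by
    have := Nat.card_pos (α := (G.induce {y | y ∉ c.support}).ConnectedComponent)
    have := h.2
    omega)).1
  obtain ⟨w⟩ := ConnectedComponent.exact (k.elim (connectedComponentMk _ ⟨y, y1⟩) (connectedComponentMk _ ⟨z, z1⟩))
  obtain ⟨⟨⟨r, s⟩, k⟩, -, k1, k2⟩ := w.exists_boundary_dart {r | (nm r).1 = t} (by simp [hy]) (by simp [hz]; omega)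
  have k := ((R.adj r s).1 k).2
  simp only [Set.mem_setOf_eq] at k1 k2
  have : (nm s).1 = 0 ∧ att (nm r).1 (nm s).2.1 (nm s).2.2 := by
    obtain k | k := k <;> obtain k | k := k
    exacts [by omega, by omega, by omega, ⟨k.1, k.2.2.2⟩]
  refine ⟨_, _, k1 ▸ this.2, fun l1 l2 q => s.2 ?_⟩
  have i := (R.ran _).2 ⟨g (nm s).2.1, rfl⟩
  have e1 := g2 (nm s).2.1 (by omega)
  have := b _ (g1 (nm s).2.1 (by omega))
  exact R.inj (Prod.ext (by omega) (Prod.ext e1 (by unfold In at i; beta_reduce at q; omega)) : nm (g (nm s).2.1) = nm s) ▸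
    g1 _ (by omega)

theorem Rep.bwd (R : Rep G n m att nm) (hn : 1 ≤ n) {u v : V} (hu : nm u = (0, 0, 0)) (hv : nm v = (0, n + 1, 0))
    (f : ℕ → ℕ) (f1 : ∀ l, f l ≤ 1) (f2 : ∀ t ≤ m, 2 ≤ t → ∃ l ≤ n, 1 ≤ l ∧ att t l (1 - f l)) :
    ∃ c : G.Walk v v, IsINC c ∧ s(u, v) ∈ c.edges ∧ c.length = n + 2 := by
  have : Nonempty V := ⟨u⟩
  choose! w hw using fun l (h : l ≤ n + 1) => (R.ran (0, l, if 1 ≤ l ∧ l ≤ n then f l else 0)).1 (by
    have := f1 l
    simp only [In]; split_ifs <;> omega)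
  obtain rfl : u = w 0 := R.inj (by simp [hu, hw])
  obtain rfl : v = w (n + 1) := R.inj (by simp [hv, hw])
  have j : ∀ i ≤ n + 1, ∀ j ≤ n + 1, w i = w j → i = j := fun i a j b e => by
    simpa using congrArg (·.2.1) ((hw i a).symm.trans (e ▸ hw j b))
  obtain ⟨p, p1, p2⟩ := build (G := G) w (n + 1) fun i h => (R.adj _ _).2 (by simp [hw i h.le, hw _ h, A])
  have k : G.Adj (w (n + 1)) (w 0) := (R.adj _ _).2 (by simp [hu, hv, A])
  have s : ∀ x, x ∈ (cons k p).support ↔ ∃ i ≤ n + 1, w i = x := fun x => by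
    simp only [support_cons, p1, List.mem_cons, List.mem_map, List.mem_range, Nat.lt_succ_iff, or_iff_right_iff_imp]
    exact fun e => ⟨_, le_rfl, e.symm⟩
  refine ⟨cons k p, ⟨(cons_isCycle_iff _ _).2 ⟨.mk' ?_, ?_⟩, ?_⟩, by simp, ?_⟩
  · rw [p1]
    exact List.nodup_range.map_on fun a b c d => j a (by simpa [Nat.lt_succ_iff] using b) c (by
      simpa [Nat.lt_succ_iff] using d)
  · simp only [p2, List.mem_map, List.mem_range, Sym2.eq_iff]
    rintro ⟨i, a, ⟨b, c⟩ | ⟨b, c⟩⟩ <;> have := j _ (by omega) _ (by omega) b <;> have := j _ (by omega) _ (by omega) c <;>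
      omega
  · rw [Set.eq_empty_of_forall_notMem (s := {e ∈ G.edgeSet | _}), Set.ncard_empty, zero_add]
    · have := R.conn {y | y ∉ (cons k p).support} (fun t a b l c => ?_) fun t a b => ?_
      · exact Nat.card_eq_one_iff_unique.2 ⟨this.preconnected.subsingleton_connectedComponent,
          this.nonempty.map (connectedComponentMk _)⟩
      · obtain ⟨y, e⟩ := (R.ran (t, l, 0)).1 (by simp [In, *])
        refine ⟨y, fun q => ?_, by simp [e]⟩
        obtain ⟨i, q', rfl⟩ := (s y).1 q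
        simp [hw i q', b.symm] at e
      · obtain ⟨l, c, d, e⟩ := f2 t a b
        obtain ⟨y, g⟩ := (R.ran (0, l, 1 - f l)).1 (by simp [In]; omega)
        refine ⟨y, fun q => ?_, by simp [g, e]⟩
        obtain ⟨i, q', rfl⟩ := (s y).1 q
        simp only [hw i q', Prod.mk.injEq, true_and] at g
        obtain ⟨rfl, g⟩ := g
        rw [if_pos ⟨d, c⟩] at g
        omega
    · rintro ⟨x, y⟩ ⟨a, b, c⟩
      obtain ⟨i, q, rfl⟩ := (s x).1 (c x (by simp))
      obtain ⟨i', q', rfl⟩ := (s y).1 (c y (by simp))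
      have := ((R.adj _ _).1 a).2
      simp only [hw i q, hw i' q', A, true_and, ne_eq, not_true, false_and, false_or, or_false] at this
      refine b ?_
      simp only [edges_cons, p2, List.mem_cons, List.mem_map, List.mem_range]
      obtain (rfl | ⟨rfl, rfl⟩) | rfl | ⟨rfl, rfl⟩ := this
      exacts [.inr ⟨i, q', rfl⟩, .inl Sym2.eq_swap, .inr ⟨i', q, Sym2.eq_swap⟩, .inl rfl]
  · have := p.length_edges
    simp [p2] at this
    simp [← this]

end Pool.Agent.H.MP_75fd85_lc
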