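import Pool.Agent.H.MP_75fd85_lc.A
import Pool.Agent.Lib.helper25.RelGr
import Pool.Agent.Lib.lead.CXBase

namespace Pool.Agent.H.MP_75fd85_lc

open Pool.Agent.Lib.CX

instance (n m x) : Decidable (In n m x) := by unfold In; infer_instance
instance (n att x y) [∀ a b c, Decidable (att a b c)] : Decidable (A n att x y) := by unfold A; infer_instance

def att (φ : List (T3 ℕ)) (t l b : ℕ) : Prop :=
  t = 1 ∨ b = t % 2 ∧ 1 ≤ l ∧ l - 1 ∈ (φ.getD (t / 2 - 1) (0, 0, 0)).vars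
instance (φ t l b) : Decidable (att φ t l b) := by unfold att; infer_instance

def vs (n m : ℕ) : List K := (0, 0, 0) :: (0, n + 1, 0) ::
  (List.range (m + 1) ×ˢ (List.range (n + 2) ×ˢ List.range 3)).filter fun x => In n m x

def rel (φ : List (T3 ℕ)) (e : K × K) : Bool := A (3 * φ.length + 1) (att φ) e.1 e.2
def gr (φ : List (T3 ℕ)) : Gr := relGr (vs (3 * φ.length + 1) (2 * φ.length + 1)) (rel φ)
def ix (φ : List (T3 ℕ)) (x : K) : ℕ := (vs (3 * φ.length + 1) (2 * φ.length + 1)).dedup.idxOf x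
def red (φ : List (T3 ℕ)) : Gr × ℕ × ℕ := (gr φ, ix φ (0, 0, 0), ix φ (0, 3 * φ.length + 2, 0))

set_option synthInstance.maxSize 2000 in
theorem pt_red : PT red := by
  have a : PT fun φ : List (T3 ℕ) => vs (3 * φ.length + 1) (2 * φ.length + 1) := by unfold vs In; fun_prop
  have c : PT fun p : List (T3 ℕ) × K × K => decide (att p.1 p.2.2.1 p.2.1.2.1 p.2.1.2.2) := by
    unfold att T3.vars; fun_prop
  have b : PT gr := PT.relGr a (.decide_or (i := fun _ => inferInstance) (j := fun _ => inferInstance) (by fun_prop)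
    (.decide_and (by fun_prop) (.decide_and (by fun_prop) (.decide_and (by fun_prop) c))))
  exact b.pair ((PT.idxOf (by fun_prop) a.dedup).pair (PT.idxOf (by fun_prop) a.dedup))

theorem rep (φ) : Rep (gr φ).G (3 * φ.length + 1) (2 * φ.length + 1) (att φ) (relNm _ (rel φ)) :=
  ⟨relNm_inj _ _, fun ⟨t, l, i⟩ => .trans (by
    simp only [vs, List.mem_cons, List.mem_filter, List.mem_product, List.mem_range, decide_eq_true_eq,
      Prod.mk.injEq, In]; omega) (relNm_range _ _ _), fun u v => (relGr_adj _ _ u v).trans (by simp [rel]),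
    by omega, fun _ _ => .inl rfl⟩

theorem ix_nm (φ) (u : Fin (gr φ).n) : ix φ (relNm _ (rel φ) u) = u := by
  have h : u.1 < (vs (3 * φ.length + 1) (2 * φ.length + 1)).dedup.length := u.2.trans_eq (mkGr_n _ _)
  have := relNm_getD _ (rel φ) id (0, 0, 0) u
  rw [List.map_id, List.getD_eq_getElem _ _ h] at this
  rw [ix, ← show _ = relNm _ (rel φ) u from this, (List.nodup_dedup _).idxOf_getElem]

theorem ends (φ) : ∃ u v, relNm _ (rel φ) u = (0, 0, 0) ∧ relNm _ (rel φ) v = (0, 3 * φ.length + 1 + 1, 0) ∧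
    (gr φ).G.Adj u v ∧ u.1 = (red φ).2.1 ∧ v.1 = (red φ).2.2 := by
  obtain ⟨u, a⟩ := ((rep φ).ran (0, 0, 0)).1 (by simp [In])
  obtain ⟨v, b⟩ := ((rep φ).ran (0, 3 * φ.length + 1 + 1, 0)).1 (by simp [In])
  exact ⟨u, v, a, b, ((rep φ).adj u v).2 (by simp [a, b, A]), by rw [← ix_nm, a]; rfl, by rw [← ix_nm, b]; rfl⟩

def Ok (φ : List (T3 ℕ)) : Prop := ∀ C ∈ φ, C.dist ∧ ∀ x ∈ C.vars, x < 3 * φ.length
instance (φ) : Decidable (Ok φ) := by unfold Ok T3.dist; infer_instance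

theorem cl {φ : List (T3 ℕ)} {t} (a : t ≤ 2 * φ.length + 1) (b : 2 ≤ t) : φ.getD (t / 2 - 1) (0, 0, 0) ∈ φ := by
  rw [List.getD_eq_getElem _ _ (by omega)]; exact List.getElem_mem _

theorem valid {φ} (h : Ok φ) : ThreeConn (red φ).1.G ∧
    ∃ u v, (red φ).1.G.Adj u v ∧ u.1 = (red φ).2.1 ∧ v.1 = (red φ).2.2 := by
  refine ⟨(rep φ).tc fun t a b => ?_, let ⟨u, v, _, _, h⟩ := ends φ; ⟨u, v, h⟩⟩
  obtain ⟨c, d⟩ := h _ (cl a b)
  simp only [T3.vars, List.forall_mem_cons] at d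
  exact ⟨t % 2, by omega, _, by omega, _, by omega, _, by omega, c.1, c.2.1, c.2.2, by simp [att, T3.vars]⟩

theorem key {φ} (h : Ok φ) : SatR nae φ ↔ ∃ L, Sol ⟨red φ, valid h⟩ L ∧ L.length ≤ 3 * φ.length + 4 := by
  obtain ⟨u, v, a, b, -, c, d⟩ := ends φ
  have e : ∀ l : List (Sym2 (Fin (gr φ).n)), s((red φ).2.1, (red φ).2.2) ∈ l.map (Sym2.map Fin.val) ↔ s(u, v) ∈ l :=
    fun l => by
      rw [← c, ← d]
      exact List.mem_map_of_injective (a := s(u, v)) (Sym2.map.injective Fin.val_injective)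
  constructor
  · rintro ⟨w, hw⟩
    obtain ⟨p, p1, p2, p3⟩ := (rep φ).bwd (by omega) a b (fun l => (w (l - 1)).toNat) (fun _ => Bool.toNat_le _)
      fun t t1 t2 => by
        obtain ⟨x, x1, x2⟩ : ∃ x ∈ (φ.getD (t / 2 - 1) (0, 0, 0)).vars, 1 - (w x).toNat = t % 2 := by
          have := hw _ (cl t1 t2)
          simp only [T3.vars, List.mem_cons, exists_eq_or_imp]
          revert this
          generalize w _ = i, w _ = j, w _ = k
          obtain q | q := Nat.mod_two_eq_zero_or_one t <;> cases i <;> cases j <;> cases k <;> simp [q, nae]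
        exact ⟨x + 1, by have := (h _ (cl t1 t2)).2 x x1; omega, by omega, .inr ⟨x2, by omega, x1⟩⟩
    exact ⟨_, ⟨_, p, p1, (e _).2 p2, rfl⟩, by rw [List.length_map, SimpleGraph.Walk.length_support]; exact Nat.succ_le_succ p3.le⟩
  · rintro ⟨_, ⟨x, p, p1, p2, rfl⟩, l⟩
    obtain ⟨f, f1, f2⟩ := (rep φ).fwd a b p1 ((e _).1 p2) (by
      rw [List.length_map, SimpleGraph.Walk.length_support] at l; exact Nat.le_of_succ_le_succ l)
    refine ⟨fun x => f (x + 1) = 1, fun C hC => ?_⟩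
    obtain ⟨j, hj, rfl⟩ := List.getElem_of_mem hC
    have : ∀ i ≤ 1, ∃ x ∈ φ[j].vars, i ≠ f (x + 1) := fun i hi => by
      obtain ⟨l, b, q | ⟨q1, q2, q3⟩, r⟩ := f2 (2 * j + 2 + i) (by omega) (by omega)
      · omega
      rw [show (2 * j + 2 + i) / 2 - 1 = j by omega, List.getD_eq_getElem _ _ hj] at q3
      have := (h _ hC).2 _ q3
      exact ⟨_, q3, by rw [Nat.sub_add_cancel q2]; have := r q2 (by omega); omega⟩
    have a0 := this 0 (by omega)
    have a1 := this 1 le_rfl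
    have := f1 (φ[j].1 + 1)
    have := f1 (φ[j].2.1 + 1)
    have := f1 (φ[j].2.2 + 1)
    simp only [T3.vars, List.mem_cons, exists_eq_or_imp] at a0 a1
    simp [nae] at a0 a1 ⊢
    omega

attribute [local irreducible] red in
theorem hard : NPHard fun a : Inst × ℕ => ∃ L, Sol a.1 L ∧ L.length ≤ a.2 + 1 := by
  have o : Ok [] := by simp [Ok]
  have p : PT fun φ => if Ok φ then φ else [] := by unfold Ok T3.dist T3.vars; fun_prop
  refine NPHard.of_nae (fun φ => (⟨red (if Ok φ then φ else []), valid (by split_ifs <;> assumption)⟩,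
    3 * φ.length + 3)) (((pt_red.comp p).subtype _).pair (by fun_prop)) fun φ (h : Ok φ) => ?_
  simp only [if_pos h]
  exact key h

theorem noalg (f : Inst → List ℕ) (hf : PT f) (h : ∀ a, Sol a (f a) ∧ ∀ L, Sol a L → (f a).length ≤ L.length)
    (A : List Bool → Prop) (hA : InNP A) : InP A :=
  InP.red (InP.of_iff (B := fun a : Inst × ℕ => (f a.1).length ≤ a.2 + 1) (InP.of_decide (by fun_prop))
    fun a => ⟨fun ⟨L, b, c⟩ => ((h a.1).2 L b).trans c, fun c => ⟨_, (h a.1).1, c⟩⟩) (hard A hA)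

end Pool.Agent.H.MP_75fd85_lc
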