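import Pool.Agent.Lib.lead.CXGraph

namespace Pool.Agent.H.MP_75fd85_lc

open Pool.Agent.Lib.CX

variable {V : Type}

/-- at least four vertices, and deleting at most two vertices leaves a connected graph -/
def ThreeConn (G : SimpleGraph V) : Prop :=
  4 ≤ Nat.card V ∧ ∀ S : Finset V, S.card ≤ 2 → (G.induce {x | x ∉ S}).Connected

/-- `c` is a cycle with exactly one bridge (chord or component of the rest of the graph) -/
def IsINC {G : SimpleGraph V} {x : V} (c : G.Walk x x) : Prop :=
  c.IsCycle ∧ {e ∈ G.edgeSet | e ∉ c.edges ∧ ∀ y ∈ e, y ∈ c.support}.ncard +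
    Nat.card (G.induce {y | y ∉ c.support}).ConnectedComponent = 1

/-- a 3-connected graph with an edge -/
abbrev Inst := {a : Gr × ℕ × ℕ // ThreeConn a.1.G ∧ ∃ u v, a.1.G.Adj u v ∧ u.1 = a.2.1 ∧ v.1 = a.2.2}

/-- `L` lists the vertices of an induced nonseparating cycle through the given edge (first vertex repeated last) -/
def Sol (a : Inst) (L : List ℕ) : Prop :=
  ∃ (x : Fin a.1.1.n) (c : a.1.1.G.Walk x x), IsINC c ∧ s(a.1.2.1, a.1.2.2) ∈ c.edges.map (Sym2.map Fin.val) ∧
    c.support.map Fin.val = L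

end Pool.Agent.H.MP_75fd85_lc
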